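import Pool.Agent.Helper53.AE.GoalsD

/-!
# Project AE (MP_8130e1_an), packet UCE: unital extension of a completely positive contraction
-/

set_option autoImplicit false

open scoped ComplexOrder Topology
open Filter TopologicalSpace
open Pool.Agent.Helper53.AE

namespace Pool.Agent.Helper40.AE.UCE

section PosK

variable {N : Type} [NonUnitalCStarAlgebra N]

theorem posK_of {ι : Type} [Fintype ι] {V : Set N} {n : ℕ} {K : Fin n → Fin n → N}
    (W : ι → Fin n → N) (hW : ∀ j s, W j s ∈ V) (h : ∀ s t, K s t = ∑ j, star (W j s) * W j t) :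
    PosK V K := by
  classical
  let e := (Fintype.equivFin ι).symm
  refine ⟨Fintype.card ι, fun j s => W (e j) s, fun j s => hW _ s, fun s t => ?_⟩
  rw [h s t]
  exact (Equiv.sum_comp e fun j => star (W j s) * W j t).symm

theorem posK_sum {n r : ℕ} (K : Fin r → Fin n → Fin n → N)
    (h : ∀ j, PosK Set.univ (K j)) : PosK Set.univ (fun s t => ∑ j, K j s t) := by
  choose R W _ hK using h
  refine posK_of (ι := Σ j : Fin r, Fin (R j)) (fun p s => W p.1 p.2 s)
    (fun _ _ => Set.mem_univ _) (fun s t => ?_)
  rw [Fintype.sum_sigma]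
  exact Finset.sum_congr rfl fun j _ => hK j s t

theorem posK_add {n : ℕ} {K L : Fin n → Fin n → N}
    (hK : PosK Set.univ K) (hL : PosK Set.univ L) : PosK Set.univ (fun s t => K s t + L s t) := by
  obtain ⟨r, W, -, hW⟩ := hK
  obtain ⟨q, X, -, hX⟩ := hL
  refine posK_of (ι := Fin r ⊕ Fin q) (fun p s => Sum.elim (fun j => W j s) (fun j => X j s) p)
    (fun _ _ => Set.mem_univ _) (fun s t => ?_)
  rw [Fintype.sum_sum_type, hW, hX]
  rfl

theorem posK_one {n : ℕ} {K : Fin n → Fin n → N} (W : Fin n → N)
    (h : ∀ s t, K s t = star (W s) * W t) : PosK Set.univ K :=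
  posK_of (ι := Unit) (fun _ s => W s) (fun _ _ => Set.mem_univ _) (fun s t => by
    rw [h]
    simp)

end PosK

theorem nonneg_ex {M : Type*} [CStarAlgebra M] [PartialOrder M] [StarOrderedRing M] {a : M}
    (h : 0 ≤ a) : ∃ z : M, a = star z * z :=
  CStarAlgebra.nonneg_iff_eq_star_mul_self.1 h

theorem nonneg_closed (M : Type*) [CStarAlgebra M] [PartialOrder M] [StarOrderedRing M] :
    IsClosed {a : M | 0 ≤ a} :=
  CStarAlgebra.isClosed_nonneg

section Closed

variable {N : Type} [CStarAlgebra N] [PartialOrder N] [StarOrderedRing N]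

theorem posK_nonneg {n : ℕ} {K : Fin n → Fin n → N} (h : PosK Set.univ K) :
    (0 : CStarMatrix (Fin n) (Fin n) N) ≤ CStarMatrix.ofMatrix K := by
  obtain ⟨r, W, -, hW⟩ := h
  rcases n with _ | n
  · exact le_of_eq (CStarMatrix.ext fun i => i.elim0)
  · have h1 : (CStarMatrix.ofMatrix K : CStarMatrix (Fin (n + 1)) (Fin (n + 1)) N) =
        ∑ j, star (CStarMatrix.ofMatrix fun l s => if l = 0 then W j s else 0) *
          (CStarMatrix.ofMatrix fun l s => if l = 0 then W j s else 0) := by
      refine CStarMatrix.ext fun s t => ?_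
      show K s t = _
      have h2 : ∀ f : Fin r → CStarMatrix (Fin (n + 1)) (Fin (n + 1)) N,
          (∑ j, f j) s t = ∑ j, f j s t := by
        intro f
        have h3 : (∑ j, f j : CStarMatrix (Fin (n + 1)) (Fin (n + 1)) N) =
          (∑ j, (f j : Matrix (Fin (n + 1)) (Fin (n + 1)) N)) := rfl
        rw [h3]
        exact Matrix.sum_apply s t _ _
      rw [hW, h2]
      refine Finset.sum_congr rfl fun j _ => ?_
      rw [CStarMatrix.mul_apply, Finset.sum_eq_single 0]
      · rw [CStarMatrix.star_apply]
        show star (W j s) * W j t = star (if (0 : Fin (n + 1)) = 0 then W j s else 0) *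
          (if (0 : Fin (n + 1)) = 0 then W j t else 0)
        rw [if_pos rfl, if_pos rfl]
      · intro l _ hl
        rw [CStarMatrix.star_apply]
        show star (if l = 0 then W j s else 0) * (if l = 0 then W j t else 0) = 0
        rw [if_neg hl, if_neg hl, mul_zero]
      · intro h0
        exact absurd (Finset.mem_univ _) h0
    rw [h1]
    exact Finset.sum_nonneg fun j _ => star_mul_self_nonneg _

theorem nonneg_posK {n : ℕ} {K : Fin n → Fin n → N}
    (h : (0 : CStarMatrix (Fin n) (Fin n) N) ≤ CStarMatrix.ofMatrix K) : PosK Set.univ K := by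
  obtain ⟨Z, hZ⟩ := nonneg_ex h
  refine ⟨n, fun j s => Z j s, fun _ _ => Set.mem_univ _, fun s t => ?_⟩
  have h1 : (CStarMatrix.ofMatrix K : CStarMatrix (Fin n) (Fin n) N) s t = (star Z * Z) s t := by
    rw [hZ]
  rw [CStarMatrix.mul_apply] at h1
  exact h1

end Closed

theorem posK_closed {N : Type} [CStarAlgebra N] {n : ℕ} {ι : Type*} {l : Filter ι} [l.NeBot]
    (K : ι → Fin n → Fin n → N) (K0 : Fin n → Fin n → N)
    (h : ∀ᶠ i in l, PosK Set.univ (K i))
    (ht : ∀ s t, Tendsto (fun i => K i s t) l (𝓝 (K0 s t))) : PosK Set.univ K0 := by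
  let _ : PartialOrder N := CStarAlgebra.spectralOrder N
  have _ : StarOrderedRing N := CStarAlgebra.spectralOrderedRing N
  apply nonneg_posK
  have h1 : Tendsto (fun i => (CStarMatrix.ofMatrix (K i) : CStarMatrix (Fin n) (Fin n) N)) l
      (𝓝 (CStarMatrix.ofMatrix K0)) := by
    refine tendsto_pi_nhds.2 fun s => tendsto_pi_nhds.2 fun t => ht s t
  exact (nonneg_closed (CStarMatrix (Fin n) (Fin n) N)).mem_of_tendsto h1
    (h.mono fun i hi => posK_nonneg hi)

/-- The unital extension. -/
def sm {A B : Type} [NonUnitalCStarAlgebra A] [NonUnitalCStarAlgebra B] (T : B →ₗ[ℂ] A) :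
    Unitization ℂ B →ₗ[ℂ] Unitization ℂ A where
  toFun x := Unitization.inl x.fst + ((T x.snd : A) : Unitization ℂ A)
  map_add' x y := by
    apply Unitization.ext <;> simp
  map_smul' c x := by
    apply Unitization.ext <;> simp

theorem sm_fst {A B : Type} [NonUnitalCStarAlgebra A] [NonUnitalCStarAlgebra B] (T : B →ₗ[ℂ] A)
    (x : Unitization ℂ B) : (sm T x).fst = x.fst := by
  show (Unitization.inl x.fst + ((T x.snd : A) : Unitization ℂ A)).fst = _
  simp

theorem sm_snd {A B : Type} [NonUnitalCStarAlgebra A] [NonUnitalCStarAlgebra B] (T : B →ₗ[ℂ] A)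
    (x : Unitization ℂ B) : (sm T x).snd = T x.snd := by
  show (Unitization.inl x.fst + ((T x.snd : A) : Unitization ℂ A)).snd = _
  simp

/-- Elements between `0` and `1`. -/
theorem gap {A : Type} [NonUnitalCStarAlgebra A] (a : A) (ha : IsSelfAdjoint a) (h1 : ‖a‖ ≤ 1) :
    ∃ c : Unitization ℂ A, 1 - (a : Unitization ℂ A) = star c * c := by
  let _ : PartialOrder (Unitization ℂ A) := CStarAlgebra.spectralOrder _
  have _ : StarOrderedRing (Unitization ℂ A) := CStarAlgebra.spectralOrderedRing _
  have h2 : IsSelfAdjoint (a : Unitization ℂ A) := by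
    unfold IsSelfAdjoint
    rw [← Unitization.inr_star, ha.star_eq]
  have h3 : (a : Unitization ℂ A) ≤ algebraMap ℝ (Unitization ℂ A) ‖(a : Unitization ℂ A)‖ :=
    h2.le_algebraMap_norm_self
  have h4 : algebraMap ℝ (Unitization ℂ A) ‖(a : Unitization ℂ A)‖ ≤ 1 := by
    rw [← map_one (algebraMap ℝ (Unitization ℂ A))]
    apply algebraMap_mono
    rw [Unitization.norm_inr]
    exact h1
  exact nonneg_ex (sub_nonneg.2 (h3.trans h4))

theorem rank {A B : Type} [NonUnitalCStarAlgebra A] [NonUnitalCStarAlgebra B]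
    (T : B →ₗ[ℂ] A) (hT : ∀ b, ‖T b‖ ≤ 2 * ‖b‖) (h1 : ∀ e : B, ‖e‖ ≤ 1 → ‖T (star e * e)‖ ≤ 1)
    (hK : ∀ (n : ℕ) (K : Fin n → Fin n → B), PosK Set.univ K →
      PosK Set.univ fun i j => T (K i j)) (n : ℕ) (Y : Fin n → Unitization ℂ B) :
    PosK Set.univ fun i j => sm T (star (Y i) * Y j) := by
  let _ : PartialOrder B := CStarAlgebra.spectralOrder _
  have _ : StarOrderedRing B := CStarAlgebra.spectralOrderedRing _
  have hu := CStarAlgebra.increasingApproximateUnit B
  have hc : Continuous T := by
    refine (T.mkContinuous 2 hT).continuous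
  refine posK_closed (l := CStarAlgebra.approximateUnit B)
    (fun (e : B) i j => (((T (star ((Y i).snd + (Y i).fst • e) * ((Y j).snd + (Y j).fst • e)) : A) :
      Unitization ℂ A)) +
      (star (Y i).fst * (Y j).fst) • (1 - ((T (star e * e) : A) : Unitization ℂ A))) _ ?_ ?_
  · filter_upwards [hu.eventually_norm] with e he
    refine posK_add ?_ ?_
    · obtain ⟨r, W, -, hW⟩ := hK n _ (posK_one (fun i => (Y i).snd + (Y i).fst • e)
        (fun _ _ => rfl))
      refine ⟨r, fun j s => (W j s : Unitization ℂ A), fun _ _ => Set.mem_univ _, fun s t => ?_⟩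
      have h5 := hW s t
      beta_reduce at h5 ⊢
      rw [h5]
      have h6 := map_sum (Unitization.inrNonUnitalStarAlgHom ℂ A)
        (fun j => star (W j s) * W j t) Finset.univ
      simp only [map_mul, map_star] at h6
      exact h6
    · have hsa : IsSelfAdjoint (T (star e * e)) := by
        obtain ⟨r, W, -, hW⟩ := hK 1 _ (posK_one (fun _ => e) (fun _ _ => rfl))
        have h5 := hW 0 0
        beta_reduce at h5
        rw [h5]
        exact isSelfAdjoint_sum _ fun j _ => IsSelfAdjoint.star_mul_self _
      obtain ⟨c, hc⟩ := gap (T (star e * e)) hsa (h1 e he)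
      refine posK_one (fun i => (Y i).fst • c) (fun s t => ?_)
      rw [hc, star_smul, smul_mul_smul_comm]
  · intro i j
    have h2 : Tendsto (fun e : B => (star (Y i).snd * (Y j).snd + (Y j).fst • (star (Y i).snd * e) +
        star (Y i).fst • (e * (Y j).snd))) (CStarAlgebra.approximateUnit B)
        (𝓝 (star (Y i).snd * (Y j).snd + (Y j).fst • star (Y i).snd +
          star (Y i).fst • (Y j).snd)) :=
      (tendsto_const_nhds.add ((hu.tendsto_mul_left (star (Y i).snd)).const_smul _)).add
        ((hu.tendsto_mul_right (Y j).snd).const_smul _)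
    have h3 : Continuous fun x : B => (Unitization.inl (star (Y i).fst * (Y j).fst) +
        ((T x : A) : Unitization ℂ A) : Unitization ℂ A) :=
      continuous_const.add ((Unitization.isometry_inr (𝕜 := ℂ)).continuous.comp hc)
    have h4 := (h3.tendsto _).comp h2
    have h5 : sm T (star (Y i) * Y j) = Unitization.inl (star (Y i).fst * (Y j).fst) +
        ((T (star (Y i).snd * (Y j).snd + (Y j).fst • star (Y i).snd +
          star (Y i).fst • (Y j).snd) : A) : Unitization ℂ A) := by
      apply Unitization.ext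
      · rw [sm_fst]
        simp
      · rw [sm_snd]
        simp only [Unitization.snd_mul, Unitization.snd_star, Unitization.fst_star,
          Unitization.snd_add, Unitization.snd_inl, Unitization.snd_inr, zero_add]
        congr 1
        abel
    rw [h5]
    refine h4.congr' ?_
    filter_upwards [hu.eventually_star_eq] with e he
    apply Unitization.ext
    · simp [sub_eq_add_neg]
    · simp only [Function.comp, Unitization.snd_add, Unitization.snd_inl, Unitization.snd_inr,
        Unitization.snd_smul, sub_eq_add_neg, Unitization.snd_neg, Unitization.snd_one, zero_add,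
        he, star_add, star_smul, mul_add, add_mul, map_add, map_smul, smul_mul_assoc,
        mul_smul_comm]
      module

theorem t : S_UCE := by
  intro A B _ _ T hT h1 hK
  refine ⟨sm T, fun l b => ?_, fun n K hPK => ?_⟩
  · apply Unitization.ext
    · rw [sm_fst]
      simp
    · rw [sm_snd]
      simp
  · obtain ⟨r, W, -, hW⟩ := hPK
    have h2 := posK_sum (fun (j : Fin r) s t => sm T (star (W j s) * W j t))
      (fun j => rank T hT h1 hK n (W j))
    have h3 : (fun i j => sm T (K i j)) = fun s t => ∑ j, sm T (star (W j s) * W j t) := by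
      funext s t
      rw [hW, map_sum]
    rw [h3]
    exact h2

end Pool.Agent.Helper40.AE.UCE
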